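import Pool.Agent.U333.Doyle.Main

/-!
# Locally univalent circle packings of the hexagonal complex

Doyle's question: every locally univalent circle packing for the hexagonal complex is the regular
hexagonal packing or a Doyle spiral.

The quotient `u(v) = log R(v + e) - log R(v)` of the label and its translate by a neighbour `e` of the
origin is bounded (ring lemma for univalent flowers), and solves a discrete divergence form equation
with symmetric conductances in `(0, 1]`, since both labels have the same angle sums. As the
triangular lattice is recurrent, `u` is constant.
-/

namespace Pool.Agent.Results.MP_5725d1_gt.OnlyDoyleSpirals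

open Pool.Agent.U333.Doyle ComplexConjugate

/-- The six directions of the hexagonal complex in cyclic (counterclockwise) order. The vertex
`(n, m)` stands for the lattice point `n + m ω`, `ω = exp (i π / 3)`, and the neighbours of `v` are
`v + direction k`, `k = 0, ..., 5`; the faces at `v` are the triples `v`, `v + direction k`,
`v + direction (k + 1)`, with `k + 1` taken modulo `6`. -/
def direction : Fin 6 → ℤ × ℤ := ![(1, 0), (0, 1), (-1, 1), (-1, 0), (0, -1), (1, -1)]

/-- A circle packing for the hexagonal complex in the plane: one circle for each vertex, the circles
of adjacent vertices being externally tangent, and every face being realised by a positively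
oriented triple of mutually tangent circles. The packing may overlap itself, and the faces at
a vertex may wrap around it more than once. -/
structure CirclePacking where
  /-- the centres of the circles -/
  center : ℤ × ℤ → ℂ
  /-- the radii of the circles, that is, the label -/
  radius : ℤ × ℤ → ℝ
  radius_pos : ∀ v, 0 < radius v
  tangent : ∀ v k, dist (center v) (center (v + direction k)) = radius v + radius (v + direction k)
  oriented : ∀ v k, 0 < ((center (v + direction (k + 1)) - center v) *
    conj (center (v + direction k) - center v)).im

/-- The vertices of the flower at `v`: `v` and its six neighbours. -/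
def flower (v : ℤ × ℤ) : Set (ℤ × ℤ) := {w | w = v ∨ ∃ k, w = v + direction k}

/-- The packing is locally univalent: for every vertex `v`, the seven circles of the flower at `v`
have pairwise disjoint interiors. -/
def LocallyUnivalent (P : CirclePacking) : Prop :=
  ∀ v, ∀ w ∈ flower v, ∀ w' ∈ flower v, w ≠ w' →
    Disjoint (Metric.ball (P.center w) (P.radius w)) (Metric.ball (P.center w') (P.radius w'))

/-- The angle at `v` of a face, opposite to the side `R u + R w` of the Euclidean triangle with side
lengths `R v + R u`, `R v + R w`, `R u + R w`, where `r = R v`, `a = R u`, `b = R w` (law of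
cosines). -/
noncomputable def angle (r a b : ℝ) : ℝ :=
  Real.arccos (((r + a) ^ 2 + (r + b) ^ 2 - (a + b) ^ 2) / (2 * (r + a) * (r + b)))

/-- The angle sum of the label `R` at `v`. -/
noncomputable def angleSum (R : ℤ × ℤ → ℝ) (v : ℤ × ℤ) : ℝ :=
  ∑ k, angle (R v) (R (v + direction k)) (R (v + direction (k + 1)))

theorem isFlower (P : CirclePacking) (h : LocallyUnivalent P) (v : ℤ × ℤ) :
    IsFlower (P.radius v) (petals P.radius v) (fun k => P.center (v + dir k) - P.center v) := by
  have hinj : ∀ j k : Fin 6, j ≠ k → direction j ≠ direction k := by decide
  refine ⟨P.radius_pos v, fun k => P.radius_pos _, fun k => ?_, fun k => ?_, fun k => ?_,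
    fun j k hjk => ?_⟩
  · have := P.tangent v k
    rw [dist_comm, dist_eq_norm] at this
    exact this
  · have h1 := P.tangent (v + direction k) (k + 2)
    have h2 : ∀ k : Fin 6, direction k + direction (k + 2) = direction (k + 1) := by decide
    rw [add_assoc, h2, dist_eq_norm] at h1
    change ‖P.center (v + direction k) - P.center v - (P.center (v + direction (k + 1)) -
      P.center v)‖ = P.radius (v + direction k) + P.radius (v + direction (k + 1))
    rw [← h1]
    congr 1
    ring
  · exact P.oriented v k
  · have h1 := h v (v + direction j) (Or.inr ⟨j, rfl⟩) (v + direction k) (Or.inr ⟨k, rfl⟩)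
      (fun he => hinj j k hjk (add_left_cancel he))
    rw [disjoint_ball_ball_iff (P.radius_pos _) (P.radius_pos _), dist_eq_norm] at h1
    change P.radius (v + direction j) + P.radius (v + direction k) ≤
      ‖P.center (v + direction j) - P.center v - (P.center (v + direction k) - P.center v)‖
    refine h1.trans (le_of_eq ?_)
    congr 1
    ring

/-- Every locally univalent circle packing for the hexagonal complex has a label of the form
`c a ^ n b ^ m`; it is thus the regular hexagonal packing or a Doyle spiral. (All its angle sums are
`2 π`, which the definition of circle packings used here does not require.) -/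
theorem result (P : CirclePacking) (hP : LocallyUnivalent P) :
    (∀ v, angleSum P.radius v = 2 * Real.pi) ∧
    ∃ a b c : ℝ, 0 < a ∧ 0 < b ∧ 0 < c ∧ ∀ n m : ℤ, P.radius (n, m) = c * a ^ n * b ^ m := by
  refine ⟨fun v => ?_, main P.radius fun v => ⟨_, isFlower P hP v⟩⟩
  have h1 := (isFlower P hP v).sum_hang
  rw [← h1, Finset.mul_sum]
  apply Finset.sum_congr rfl
  intro k _
  exact faceAngle_eq (P.radius_pos _) (P.radius_pos _) (P.radius_pos _)

end Pool.Agent.Results.MP_5725d1_gt.OnlyDoyleSpirals
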